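import Pool.Agent.V7H1.ThetaMap.Main

/-!
# The second order theta map is not an embedding for `g ≥ 4`

MP_2bf81a_ag, Q1, negated form: for every `g ≥ 4` the theta map `Th : A_g(2,4) → P^(2^g - 1)` is not an
isomorphism of complex analytic spaces onto its image near the point `τ₀ = i 1_g` (a product of
elliptic curves).

A holomorphic function on the open subset `π(U)` of the quotient `A_g(2,4) = H_g / Γ_g(2,4)`, where
`π : H_g → A_g(2,4)` and `U` is open in `H_g`, is the same as a holomorphic function on `U` which takes
the same value at points of `U` which are in the same orbit of `Γ_g(2,4)`. If `Th` were an isomorphism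
onto its image near `π(τ₀)`, then each such function would be, near `τ₀`, of the form `F ∘ Th` where `F`
is holomorphic near `Th(τ₀)` in projective space, that is, `F` is holomorphic near the vector of the
theta constants `Θ[ε](τ₀)` in `ℂ^(2^g)` and homogeneous of degree `0`. The function

`f(τ) = τ₁₂ τ₃₄ (τ₁₄ τ₂₃ - τ₁₃ τ₂₄)`

is invariant under `Γ_g(2,4)` near `τ₀`, as the elements of `Γ_g(2,4)` which move points close to `τ₀` to
points close to `τ₀` act as `τ ↦ D τ D`, `D` diagonal with entries `± 1`. But `f` is not of the form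
`F(Θ(τ))` for any `F` which is holomorphic near `Θ(τ₀)` in `ℂ^(2^g)`.

Proof. Let `τ = τ₀ + ` the symmetric matrix with the entries `± s, s, s, s` at `12, 23, 34, 41`. The
difference of the values of `Θ` for the two signs is `K s⁴ + o(s⁴)`, where the vector `K` is, up to a
constant, `∑ exp(-2π|x|²) x₁² x₂² x₃² x₄²`, `x ∈ ℤ^g + ε`: it is the same for the four cycles `1234` and
`1243`. The differential of `F` at `Θ(τ₀)` takes the value `2` at `K` by the first four cycle, and
`-2` by the second.
-/

set_option autoImplicit false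

namespace Pool.Agent.Results.MP_2bf81a_ag.NotEmbeddingH1

open Complex Filter Topology Pool.Agent.V7H1.ThetaMap

/-- Let `g ≥ 4` and `τ₀ = i 1_g`. There is a holomorphic function `f` on a neighbourhood of the image
of `τ₀` in `A_g(2,4)` which is not near `τ₀` of the form `F ∘ Θ` with `F` holomorphic near the vector
`Θ(τ₀)` of the theta constants of second order. -/
theorem result (g : ℕ) (hg : 4 ≤ g) (τ₀ : SymMat g)
    (hτ₀ : ∀ i j, mat τ₀ i j = if i = j then I else 0) :
    τ₀ ∈ siegel g ∧ thetaConst τ₀ ≠ 0 ∧
    ∃ (U : Set (SymMat g)) (f : SymMat g → ℂ),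
      τ₀ ∈ U ∧ QuotientFunction U f ∧ ¬ PulledBack τ₀ f := by
  have h0 : τ₀ = base g := by
    apply Subtype.ext
    funext i j
    exact hτ₀ i j
  have hg0 : 0 < g := by omega
  subst h0
  refine ⟨near_subset_siegel hg0 (near_base hg0), thetaConst_base_ne (Fin.castLE hg),
    {τ | Near (1 / (8 * (g : ℝ))) τ}, fcn (Fin.castLE hg), near_base hg0,
    ⟨isOpen_near _, near_subset_siegel hg0, analytic_fcn _ _, ?_⟩, ?_⟩
  · intro τ hτ τ' hτ' hO
    exact (fcn_invariant hg0 _ hτ hτ' hO).symm
  · rintro ⟨F, hF, h⟩
    exact main hg F hF h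

end Pool.Agent.Results.MP_2bf81a_ag.NotEmbeddingH1
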